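import Mathlib

/-!
# Lemma K (helper42, project SQ, MP_71c16a_nt): proof of helper22

Items `i` with costs `k i ≤ s`, total cost `≤ p (s + 1)`. `w ≥ 0` is a measure on the sets of at most `p` items such that `w {X : X meets Z} ≤ 1`
for every `Z` of cost `≤ s`. Then `∑ w(X) |X| ≤ 2 p`.

PROOF. Let `L` be the `p` items of the largest costs, the others are small. Random `Z`: one of `2 p` tokens; for each `i ∈ L` the token `{i}` together
with the prefix fill of capacity `s - k i`, and `p` times the prefix fill of capacity `s`. The prefix fill of capacity `c`: uniformly random order of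
the small items, longest initial segment of cost `≤ c`. `PP k X n R c` is the probability that the fill of capacity `c` from `R` hits `X`.
`PP_low`: with `h = |R ∩ X|`, `w = k(R - X)`: `PP ≥ average over j ∈ R ∩ X of Ph h w (c + 1 - k j)`, `Ph h w y = h y / (w + h y)` for `y > 0`.
`core`: the sum over the tokens, by Chebyshev's inequality.
-/

open Finset

set_option autoImplicit false

namespace Pool.Agent.Helper22.LK

/-- the lower bound of the hitting probability -/
noncomputable def Ph (h w y : ℝ) : ℝ := if y ≤ 0 then 0 else h * y / (w + h * y)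

theorem Ph_nonneg {h w : ℝ} (hh : 1 ≤ h) (hw : 0 ≤ w) (y : ℝ) : 0 ≤ Ph h w y := by
  unfold Ph
  split_ifs with h1
  · exact le_refl _
  · push Not at h1
    positivity

theorem Ph_mono {h w : ℝ} (hh : 1 ≤ h) (hw : 0 ≤ w) {y z : ℝ} (hyz : y ≤ z) : Ph h w y ≤ Ph h w z := by
  have hh0 : 0 < h := by linarith
  by_cases h1 : y ≤ 0
  · have e : Ph h w y = 0 := by
      unfold Ph
      rw [if_pos h1]
    rw [e]
    exact Ph_nonneg hh hw z
  · push Not at h1
    have hz : 0 < z := lt_of_lt_of_le h1 hyz
    unfold Ph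
    rw [if_neg (not_le.2 h1), if_neg (not_le.2 hz), div_le_div_iff₀ (by positivity) (by positivity)]
    have h2 : h * y ≤ h * z := mul_le_mul_of_nonneg_left hyz hh0.le
    nlinarith [mul_le_mul_of_nonneg_left h2 hw]

theorem Ph_step {h w c y : ℝ} (hh : 1 ≤ h) (hc : 0 ≤ c) (hcw : c ≤ w) (hy : 0 < y) :
    1 - (w + h * c) / (w + h * y) ≤ Ph h (w - c) (y - c) := by
  have hh0 : 0 < h := by linarith
  have hD : 0 < w + h * y := by
    have : 0 < h * y := by positivity
    linarith
  unfold Ph
  split_ifs with h1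
  · rw [sub_nonpos, le_div_iff₀ hD]
    nlinarith
  · push Not at h1
    have e : 1 - (w + h * c) / (w + h * y) = h * (y - c) / (w + h * y) := by
      field_simp
      ring
    rw [e]
    have h2 : 0 < h * (y - c) := by positivity
    apply div_le_div_of_nonneg_left h2.le (by linarith)
    nlinarith

variable {I : Type*} [DecidableEq I]

/-- probability that the random prefix fill of capacity `c` from `R` hits `X` (recursion on the first item, depth `n`) -/
noncomputable def PP (k : I → ℕ) (X : Finset I) : ℕ → Finset I → ℕ → ℝ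
  | 0, _, _ => 0
  | n + 1, R, c => (∑ i ∈ R, if k i ≤ c then (if i ∈ X then 1 else PP k X n (R.erase i) (c - k i)) else 0) / (R.card : ℝ)

theorem PP_nonneg (k : I → ℕ) (X : Finset I) (n : ℕ) : ∀ (R : Finset I) (c : ℕ), 0 ≤ PP k X n R c := by
  induction n with
  | zero => intro R c; simp [PP]
  | succ n ih =>
    intro R c
    rw [PP]
    refine div_nonneg (Finset.sum_nonneg fun i _ => ?_) (by positivity)
    split_ifs
    · norm_num
    · exact ih _ _
    · exact le_refl _

private theorem base [Fintype I] {k : I → ℕ} {s : ℕ} {w : Finset I → ℝ}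
    (hZ : ∀ Z : Finset I, ∑ i ∈ Z, k i ≤ s → ∑ X ∈ univ.filter (fun X : Finset I => ¬Disjoint X Z), w X ≤ 1)
    (A : Finset I) (hA : ∑ i ∈ A, k i ≤ s) : ∑ X : Finset I, w X * (if Disjoint X A then 0 else 1) ≤ 1 := by
  have h1 := hZ A hA
  rw [Finset.sum_filter] at h1
  refine le_trans (le_of_eq ?_) h1
  refine Finset.sum_congr rfl fun X _ => ?_
  by_cases h : Disjoint X A
  · simp [h]
  · simp [h]

/-- the average of the hypothesis over the random fill -/
theorem PP_up [Fintype I] {k : I → ℕ} {s : ℕ} {w : Finset I → ℝ}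
    (hZ : ∀ Z : Finset I, ∑ i ∈ Z, k i ≤ s → ∑ X ∈ univ.filter (fun X : Finset I => ¬Disjoint X Z), w X ≤ 1) (n : ℕ) :
    ∀ (R A : Finset I) (c : ℕ), Disjoint R A → ∑ i ∈ A, k i + c ≤ s →
      ∑ X : Finset I, w X * (if Disjoint X A then PP k X n R c else 1) ≤ 1 := by
  induction n with
  | zero =>
    intro R A c _ hc
    simpa [PP] using base hZ A (by omega)
  | succ n ih =>
    intro R A c hRA hc
    rcases R.eq_empty_or_nonempty with hR | hR
    · subst hR
      simpa [PP] using base hZ A (by omega)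
    · have hm : (0 : ℝ) < (R.card : ℝ) := by exact_mod_cast hR.card_pos
      set q : I → Finset I → ℝ := fun i X => if k i ≤ c then (if i ∈ X then 1 else PP k X n (R.erase i) (c - k i)) else 0 with hq
      have e : ∑ X : Finset I, w X * (if Disjoint X A then PP k X (n + 1) R c else 1) =
          (∑ i ∈ R, ∑ X : Finset I, w X * (if Disjoint X A then q i X else 1)) / (R.card : ℝ) := by
        rw [Finset.sum_comm, Finset.sum_div]
        refine Finset.sum_congr rfl fun X _ => ?_
        by_cases h : Disjoint X A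
        · simp only [h, if_true]
          rw [PP, ← Finset.mul_sum, mul_div_assoc]
        · simp only [h, if_false, mul_one]
          rw [Finset.sum_const, nsmul_eq_mul]
          field_simp
      rw [e, div_le_one hm]
      have h1 : ∀ i ∈ R, ∑ X : Finset I, w X * (if Disjoint X A then q i X else 1) ≤ 1 := by
        intro i hi
        by_cases hk : k i ≤ c
        · have hiA : i ∉ A := fun h => (Finset.disjoint_left.1 hRA hi) h
          have h2 := ih (R.erase i) (insert i A) (c - k i) (by
            rw [Finset.disjoint_insert_right]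
            exact ⟨Finset.notMem_erase i R, hRA.mono_left (Finset.erase_subset i R)⟩) (by
            rw [Finset.sum_insert hiA]
            omega)
          refine le_trans (le_of_eq ?_) h2
          refine Finset.sum_congr rfl fun X _ => ?_
          simp only [hq, hk, if_true]
          by_cases h3 : i ∈ X
          · have h4 : ¬Disjoint X (insert i A) := by
              rw [Finset.disjoint_insert_right]
              exact fun h => h.1 h3
            simp [h3, h4]
          · by_cases h5 : Disjoint X A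
            · have h4 : Disjoint X (insert i A) := by
                rw [Finset.disjoint_insert_right]
                exact ⟨h3, h5⟩
              simp [h3, h4, h5]
            · have h4 : ¬Disjoint X (insert i A) := by
                rw [Finset.disjoint_insert_right]
                exact fun h => h5 h.2
              simp [h4, h5]
        · simpa [hq, hk] using base hZ A (by omega)
      calc ∑ i ∈ R, ∑ X : Finset I, w X * (if Disjoint X A then q i X else 1) ≤ ∑ i ∈ R, (1 : ℝ) := Finset.sum_le_sum h1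
        _ = (R.card : ℝ) := by simp

/-- the lower bound of the hitting probability -/
theorem PP_low {k : I → ℕ} {X : Finset I} (n : ℕ) : ∀ (R : Finset I) (c : ℕ), R.card ≤ n → 1 ≤ (R ∩ X).card →
    (∑ j ∈ R ∩ X, Ph (R ∩ X).card (∑ i ∈ R \ X, (k i : ℝ)) ((c : ℝ) + 1 - k j)) / (R ∩ X).card ≤ PP k X n R c := by
  induction n with
  | zero =>
    intro R c h1 h2
    have : R = ∅ := Finset.card_eq_zero.1 (by omega)
    subst this
    simp at h2
  | succ n ih =>
    intro R c hn hH
    set H : Finset I := R ∩ X with hHd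
    set h : ℝ := (H.card : ℝ) with hh
    set w : ℝ := ∑ i ∈ R \ X, (k i : ℝ) with hw
    have hh1 : 1 ≤ h := by
      rw [hh]
      exact_mod_cast hH
    have hh0 : 0 < h := by linarith
    have hw0 : 0 ≤ w := Finset.sum_nonneg fun i _ => Nat.cast_nonneg _
    have hcard : (R.card : ℝ) = h + ((R \ X).card : ℝ) := by
      rw [hh, hHd]
      exact_mod_cast (Finset.card_inter_add_card_sdiff R X).symm
    have hm : 0 < (R.card : ℝ) := by
      rw [hcard]
      positivity
    rw [PP, le_div_iff₀ hm, ← Finset.sum_inter_add_sum_sdiff R X]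
    -- the items in `X`
    have e1 : ∑ i ∈ R ∩ X, (if k i ≤ c then (if i ∈ X then (1 : ℝ) else PP k X n (R.erase i) (c - k i)) else 0) =
        ∑ j ∈ H, (if k j ≤ c then (1 : ℝ) else 0) := by
      refine Finset.sum_congr rfl fun i hi => ?_
      have : i ∈ X := (Finset.mem_inter.1 hi).2
      simp [this]
    -- the others
    have e2 : ∑ i ∈ R \ X, (∑ j ∈ H, Ph h (w - k i) ((c : ℝ) + 1 - k j - k i)) / h ≤
        ∑ i ∈ R \ X, (if k i ≤ c then (if i ∈ X then (1 : ℝ) else PP k X n (R.erase i) (c - k i)) else 0) := by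
      refine Finset.sum_le_sum fun i hi => ?_
      obtain ⟨hiR, hiX⟩ := Finset.mem_sdiff.1 hi
      by_cases hk : k i ≤ c
      · simp only [hk, if_true, hiX, if_false]
        have g1 : (R.erase i) ∩ X = H := by
          rw [hHd]
          ext j
          simp only [Finset.mem_inter, Finset.mem_erase]
          constructor
          · exact fun h => ⟨h.1.2, h.2⟩
          · exact fun h => ⟨⟨fun h' => hiX (h' ▸ h.2), h.1⟩, h.2⟩
        have g2 : (R.erase i) \ X = (R \ X).erase i := by
          ext j
          simp only [Finset.mem_sdiff, Finset.mem_erase]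
          tauto
        have g3 : ∑ j ∈ (R.erase i) \ X, (k j : ℝ) = w - k i := by
          rw [g2, hw, ← Finset.add_sum_erase (R \ X) (fun j => (k j : ℝ)) hi]
          ring
        have g4 : (R.erase i).card ≤ n := by
          rw [Finset.card_erase_of_mem hiR]
          omega
        have g5 := ih (R.erase i) (c - k i) g4 (by rw [g1]; exact hH)
        rw [g1, g3] at g5
        refine le_trans (le_of_eq ?_) g5
        rw [← hh]
        congr 1
        refine Finset.sum_congr rfl fun j _ => ?_
        congr 1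
        rw [Nat.cast_sub hk]
        ring
      · simp only [hk, if_false]
        have g1 : ∑ j ∈ H, Ph h (w - k i) ((c : ℝ) + 1 - k j - k i) = 0 := by
          refine Finset.sum_eq_zero fun j _ => ?_
          unfold Ph
          rw [if_pos]
          have g2 : (c : ℝ) + 1 ≤ k i := by exact_mod_cast Nat.lt_of_not_le hk
          have g3 : (0 : ℝ) ≤ k j := Nat.cast_nonneg _
          linarith
        rw [g1, zero_div]
    rw [e1]
    refine le_trans ?_ (add_le_add_right e2 _)
    -- exchange the sums
    have e3 : ∑ i ∈ R \ X, (∑ j ∈ H, Ph h (w - k i) ((c : ℝ) + 1 - k j - k i)) / h =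
        ∑ j ∈ H, (∑ i ∈ R \ X, Ph h (w - k i) ((c : ℝ) + 1 - k j - k i)) / h := by
      rw [← Finset.sum_div, ← Finset.sum_div, Finset.sum_comm]
    rw [e3, ← Finset.sum_add_distrib, Finset.sum_div, Finset.sum_mul]
    refine Finset.sum_le_sum fun j _ => ?_
    set y : ℝ := (c : ℝ) + 1 - k j with hy
    by_cases hy0 : y ≤ 0
    · have g1 : Ph h w y = 0 := by
        unfold Ph
        rw [if_pos hy0]
      rw [g1]
      have g2 : 0 ≤ ∑ i ∈ R \ X, Ph h (w - k i) (y - k i) := by
        refine Finset.sum_nonneg fun i hi => Ph_nonneg hh1 ?_ _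
        rw [sub_nonneg, hw]
        exact Finset.single_le_sum (f := fun i => (k i : ℝ)) (fun j _ => Nat.cast_nonneg _) hi
      have g3 : 0 ≤ (∑ i ∈ R \ X, Ph h (w - k i) (y - k i)) / h := div_nonneg g2 hh0.le
      split_ifs <;> simp <;> linarith
    · push Not at hy0
      have hkc : k j ≤ c := by
        have : (k j : ℝ) < c + 1 := by linarith
        exact Nat.lt_succ_iff.1 (by exact_mod_cast this)
      rw [if_pos hkc]
      have hD : 0 < w + h * y := by positivity
      have g1 : ∑ i ∈ R \ X, (1 - (w + h * k i) / (w + h * y)) ≤ ∑ i ∈ R \ X, Ph h (w - k i) (y - k i) := by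
        refine Finset.sum_le_sum fun i hi => Ph_step hh1 (Nat.cast_nonneg _) ?_ hy0
        rw [hw]
        exact Finset.single_le_sum (f := fun i => (k i : ℝ)) (fun j _ => Nat.cast_nonneg _) hi
      have g2 : ∑ i ∈ R \ X, (1 - (w + h * k i) / (w + h * y)) =
          ((R \ X).card : ℝ) - (((R \ X).card : ℝ) * w + h * w) / (w + h * y) := by
        rw [Finset.sum_sub_distrib, Finset.sum_const, nsmul_eq_mul, mul_one, ← Finset.sum_div, Finset.sum_add_distrib,
          Finset.sum_const, nsmul_eq_mul, ← Finset.mul_sum]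
      have g3 : Ph h w y = h * y / (w + h * y) := by
        unfold Ph
        rw [if_neg (not_le.2 hy0)]
      rw [g3, hcard]
      have g4 : h * y / (w + h * y) / h * (h + ((R \ X).card : ℝ)) =
          1 + (((R \ X).card : ℝ) - (((R \ X).card : ℝ) * w + h * w) / (w + h * y)) / h := by
        field_simp
        ring
      rw [g4, ← g2]
      have g5 := div_le_div_of_nonneg_right g1 hh0.le
      linarith

/-- one token: the inequality for one cost -/
private theorem pt {h w D₀ a b d : ℝ} (hh : 1 ≤ h) (hw : 0 ≤ w) (hD : 0 < D₀) (ha : D₀ ≤ a) (hb : 0 ≤ b) (hd : d ≤ D₀) :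
    D₀ ≤ D₀ * Ph h w (d - b) + Ph h w a * (D₀ + w / h + b - d) := by
  have hh0 : 0 < h := by linarith
  have ha0 : 0 < a := by linarith
  set o : ℝ := w / h with ho
  have ho0 : 0 ≤ o := by positivity
  have hwo : w = o * h := by
    rw [ho]
    field_simp
  have e : ∀ y : ℝ, 0 < y → Ph h w y = y / (o + y) := by
    intro y hy
    unfold Ph
    rw [if_neg (not_le.2 hy), hwo]
    field_simp
  rw [e a ha0]
  by_cases h1 : d - b ≤ 0
  · have e2 : Ph h w (d - b) = 0 := by
      unfold Ph
      rw [if_pos h1]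
    rw [e2, mul_zero, zero_add, div_mul_eq_mul_div, le_div_iff₀ (by positivity)]
    nlinarith
  · push Not at h1
    rw [e _ h1]
    set x : ℝ := d - b with hx
    have hxD : x ≤ D₀ := by linarith
    have e3 : D₀ + o + b - d = D₀ + o - x := by
      rw [hx]
      ring
    rw [e3]
    have e4 : D₀ * (x / (o + x)) + a / (o + a) * (D₀ + o - x) =
        (D₀ * x * (o + a) + a * (D₀ + o - x) * (o + x)) / ((o + x) * (o + a)) := by
      field_simp
    rw [e4, le_div_iff₀ (by positivity)]
    have h2 : 0 ≤ (a - D₀) * o ^ 2 := mul_nonneg (by linarith) (by positivity)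
    have h3 : 0 ≤ a * ((D₀ - x) * x) := mul_nonneg ha0.le (mul_nonneg (by linarith) h1.le)
    nlinarith

/-- the sum over the tokens -/
theorem core {σ D₀ w p : ℝ} (hw : 0 ≤ w) (hD : 0 < D₀) (b d : I → ℝ) (X H : Finset I) (hX : 1 ≤ X.card) (hHX : H.card = X.card)
    (hb : ∀ j ∈ X, 0 ≤ b j) (hbD : ∀ j ∈ X, D₀ ≤ σ - b j) (hd : ∀ i ∈ H, d i ≤ D₀)
    (hsum : w + ∑ j ∈ X, b j ≤ ∑ i ∈ H, d i + (p - X.card) * D₀) :
    (X.card : ℝ) ≤ ∑ i ∈ H, (∑ j ∈ X, Ph X.card w (d i - b j)) / X.card + p * ((∑ j ∈ X, Ph X.card w (σ - b j)) / X.card) := by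
  set h : ℝ := (X.card : ℝ) with hh
  have hh1 : 1 ≤ h := by
    rw [hh]
    exact_mod_cast hX
  have hh0 : 0 < h := by linarith
  set Ψ : ℝ := ∑ j ∈ X, Ph h w (σ - b j) with hΨ
  have hΨ0 : 0 ≤ Ψ := Finset.sum_nonneg fun j _ => Ph_nonneg hh1 hw _
  -- Chebyshev
  have hJ : ∀ i ∈ H, h * (h * D₀) ≤ h * (D₀ * ∑ j ∈ X, Ph h w (d i - b j)) + Ψ * (h * D₀ + w + ∑ j ∈ X, b j - h * d i) := by
    intro i hi
    have hav : AntivaryOn (fun j => Ph h w (σ - b j)) (fun j => D₀ + w / h + b j - d i) (X : Set I) := by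
      intro j _ l _ hjl
      beta_reduce at hjl ⊢
      exact Ph_mono hh1 hw (by linarith)
    have h1 := hav.card_mul_sum_le_sum_mul_sum
    have h2 : ∑ j ∈ X, (D₀ + w / h + b j - d i) = h * D₀ + w + ∑ j ∈ X, b j - h * d i := by
      rw [Finset.sum_sub_distrib, Finset.sum_add_distrib, Finset.sum_const, Finset.sum_const, nsmul_eq_mul, nsmul_eq_mul, ← hh]
      field_simp
    rw [h2, ← hh, ← hΨ] at h1
    have h3 : ∑ j ∈ X, D₀ ≤ ∑ j ∈ X, (D₀ * Ph h w (d i - b j) + Ph h w (σ - b j) * (D₀ + w / h + b j - d i)) :=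
      Finset.sum_le_sum fun j hj => pt hh1 hw hD (hbD j hj) (hb j hj) (hd i hi)
    rw [Finset.sum_const, nsmul_eq_mul, ← hh, Finset.sum_add_distrib, ← Finset.mul_sum] at h3
    have h4 := mul_le_mul_of_nonneg_left h3 hh0.le
    rw [mul_add] at h4
    linarith
  have hS := Finset.sum_le_sum hJ
  rw [Finset.sum_const, nsmul_eq_mul, hHX, ← hh, Finset.sum_add_distrib, ← Finset.mul_sum, ← Finset.mul_sum, ← Finset.mul_sum] at hS
  have h5 : ∑ i ∈ H, (h * D₀ + w + ∑ j ∈ X, b j - h * d i) = h * (h * D₀ + w + ∑ j ∈ X, b j - ∑ i ∈ H, d i) := by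
    rw [Finset.sum_sub_distrib, Finset.sum_const, nsmul_eq_mul, hHX, ← hh, ← Finset.mul_sum]
    ring
  rw [h5] at hS
  set SA : ℝ := ∑ i ∈ H, ∑ j ∈ X, Ph h w (d i - b j) with hSA
  have h6 : Ψ * (h * D₀ + w + ∑ j ∈ X, b j - ∑ i ∈ H, d i) ≤ Ψ * (p * D₀) := mul_le_mul_of_nonneg_left (by linarith) hΨ0
  have h7 : h * (h * D₀) ≤ D₀ * SA + Ψ * (p * D₀) := by
    have h8 : h * (h * (h * D₀)) ≤ h * (D₀ * SA + Ψ * (h * D₀ + w + ∑ j ∈ X, b j - ∑ i ∈ H, d i)) := by linarith
    have h9 := le_of_mul_le_mul_left h8 hh0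
    linarith
  have h8 : h * h ≤ SA + p * Ψ := by
    have h9 : D₀ * (h * h) ≤ D₀ * (SA + p * Ψ) := by linarith
    exact le_of_mul_le_mul_left h9 hD
  rw [← Finset.sum_div, ← hSA, ← mul_div_assoc, ← add_div, le_div_iff₀ hh0]
  exact h8

/-- the `n` items of the largest costs -/
private theorem exists_top [Fintype I] (k : I → ℕ) (n : ℕ) : n ≤ Fintype.card I →
    ∃ L : Finset I, L.card = n ∧ ∀ i ∈ L, ∀ j, j ∉ L → k j ≤ k i := by
  induction n with
  | zero => exact fun _ => ⟨∅, rfl, by simp⟩
  | succ n ih =>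
    intro hn
    obtain ⟨L, hL, hLk⟩ := ih (by omega)
    have hne : (univ \ L).Nonempty := by
      rw [← Finset.card_pos, Finset.card_sdiff_of_subset (Finset.subset_univ L), Finset.card_univ, hL]
      omega
    obtain ⟨m, hm, hmax⟩ := Finset.exists_max_image (univ \ L) k hne
    have hmL : m ∉ L := (Finset.mem_sdiff.1 hm).2
    refine ⟨insert m L, by rw [Finset.card_insert_of_notMem hmL, hL], ?_⟩
    intro i hi j hj
    rw [Finset.mem_insert, not_or] at hj
    rcases Finset.mem_insert.1 hi with h | h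
    · subst h
      exact hmax j (Finset.mem_sdiff.2 ⟨Finset.mem_univ j, hj.2⟩)
    · exact hLk i h j hj.2

theorem lemmaK [Fintype I] (p s : ℕ) (k : I → ℕ) (hk : ∀ i, k i ≤ s) (hK : ∑ i, k i ≤ p * (s + 1)) (w : Finset I → ℝ)
    (hw : ∀ X, 0 ≤ w X) (hX : ∀ X, w X ≠ 0 → X.card ≤ p)
    (hZ : ∀ Z : Finset I, ∑ i ∈ Z, k i ≤ s → ∑ X ∈ univ.filter (fun X : Finset I => ¬Disjoint X Z), w X ≤ 1) :
    ∑ X, w X * (X.card : ℝ) ≤ 2 * p := by
  rcases Nat.lt_or_ge (Fintype.card I) p with hc | hc
  · -- few items
    have e : ∀ X : Finset I, w X * (X.card : ℝ) = ∑ i : I, w X * (if Disjoint X {i} then 0 else 1) := by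
      intro X
      rw [← Finset.mul_sum]
      congr 1
      have : ∀ i : I, (if Disjoint X {i} then (0 : ℝ) else 1) = if i ∈ X then 1 else 0 := by
        intro i
        by_cases h : i ∈ X
        · simp [h]
        · simp [h]
      simp only [this]
      rw [Finset.sum_boole, Finset.filter_univ_mem]
    simp only [e]
    rw [Finset.sum_comm]
    have h1 : ∑ i : I, ∑ X : Finset I, w X * (if Disjoint X {i} then 0 else 1) ≤ ∑ _i : I, (1 : ℝ) :=
      Finset.sum_le_sum fun i _ => base hZ {i} (by rw [Finset.sum_singleton]; exact hk i)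
    refine h1.trans ?_
    rw [Finset.sum_const, Finset.card_univ, nsmul_eq_mul, mul_one]
    have h2 : (Fintype.card I : ℝ) ≤ p := by exact_mod_cast hc.le
    have h3 : (0 : ℝ) ≤ p := Nat.cast_nonneg _
    linarith
  · obtain ⟨L, hLc, hL⟩ := exists_top k p hc
    set S : Finset I := univ \ L with hS
    set n : ℕ := S.card with hn
    have hSL : Disjoint S L := Finset.sdiff_disjoint
    -- the tokens
    set T : Finset I → ℝ := fun X => ∑ i ∈ L, (if Disjoint X {i} then PP k X n S (s - k i) else 1) +
      p * (if Disjoint X ∅ then PP k X n S s else 1) with hT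
    have hup : ∑ X : Finset I, w X * T X ≤ 2 * p := by
      have e : ∑ X : Finset I, w X * T X = ∑ i ∈ L, (∑ X : Finset I, w X * (if Disjoint X {i} then PP k X n S (s - k i) else 1)) +
          p * ∑ X : Finset I, w X * (if Disjoint X ∅ then PP k X n S s else 1) := by
        rw [Finset.sum_comm, Finset.mul_sum, ← Finset.sum_add_distrib]
        refine Finset.sum_congr rfl fun X _ => ?_
        simp only [hT]
        rw [mul_add, Finset.mul_sum]
        ring
      rw [e]
      have h1 : ∑ i ∈ L, (∑ X : Finset I, w X * (if Disjoint X {i} then PP k X n S (s - k i) else 1)) ≤ ∑ i ∈ L, (1 : ℝ) :=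
        Finset.sum_le_sum fun i hi => PP_up hZ n S {i} (s - k i)
          (by
            rw [Finset.disjoint_singleton_right]
            exact fun h => (Finset.disjoint_left.1 hSL h) hi)
          (by
            have := hk i
            rw [Finset.sum_singleton]
            omega)
      have h2 := PP_up hZ n S ∅ s (Finset.disjoint_empty_right S) (by simp)
      rw [Finset.sum_const, hLc, nsmul_eq_mul, mul_one] at h1
      have h3 := mul_le_mul_of_nonneg_left h2 (Nat.cast_nonneg (α := ℝ) p)
      linarith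
    refine le_trans (Finset.sum_le_sum fun X _ => ?_) hup
    by_cases hwX : w X = 0
    · rw [hwX]
      simp
    refine mul_le_mul_of_nonneg_left ?_ (hw X)
    have hXp := hX X hwX
    -- the cardinality
    have hcard : X.card = (L ∩ X).card + (S ∩ X).card := by
      rw [← Finset.card_union_of_disjoint (hSL.symm.mono Finset.inter_subset_left Finset.inter_subset_left)]
      congr 1
      ext i
      simp only [hS, Finset.mem_union, Finset.mem_inter, Finset.mem_sdiff, Finset.mem_univ, true_and]
      tauto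
    have hTL : ((L ∩ X).card : ℝ) + ∑ i ∈ L \ X, PP k X n S (s - k i) + p * PP k X n S s ≤ T X := by
      simp only [hT]
      rw [← Finset.sum_inter_add_sum_sdiff L X]
      have h1 : ∑ i ∈ L ∩ X, (if Disjoint X {i} then PP k X n S (s - k i) else (1 : ℝ)) = ((L ∩ X).card : ℝ) := by
        rw [Finset.sum_congr rfl (g := fun _ => (1 : ℝ))]
        · simp
        · intro i hi
          have : i ∈ X := (Finset.mem_inter.1 hi).2
          simp [this]
      have h2 : ∑ i ∈ L \ X, (if Disjoint X {i} then PP k X n S (s - k i) else (1 : ℝ)) = ∑ i ∈ L \ X, PP k X n S (s - k i) := by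
        refine Finset.sum_congr rfl fun i hi => ?_
        have : i ∉ X := (Finset.mem_sdiff.1 hi).2
        simp [this]
      rw [h1, h2]
      simp
    refine le_trans ?_ hTL
    by_cases hh : (S ∩ X).card = 0
    · rw [hcard, hh]
      have h1 : 0 ≤ ∑ i ∈ L \ X, PP k X n S (s - k i) := Finset.sum_nonneg fun i _ => PP_nonneg k X n _ _
      have h2 : 0 ≤ (p : ℝ) * PP k X n S s := mul_nonneg (Nat.cast_nonneg _) (PP_nonneg k X n _ _)
      push_cast
      linarith
    have hh1 : 1 ≤ (S ∩ X).card := Nat.one_le_iff_ne_zero.2 hh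
    -- `h` items of `L` outside `X`
    have hLX : (L ∩ X).card + (L \ X).card = p := by rw [Finset.card_inter_add_card_sdiff, hLc]
    obtain ⟨H, hHL, hHc⟩ := Finset.exists_subset_card_eq (show (S ∩ X).card ≤ (L \ X).card by omega)
    have hHL' : H ⊆ L := hHL.trans Finset.sdiff_subset
    have hLne : L.Nonempty := by
      rw [← Finset.card_pos]
      omega
    obtain ⟨m, hm, hmin⟩ := Finset.exists_min_image L k hLne
    set D₀ : ℝ := (s : ℝ) + 1 - k m with hD₀
    have hD : 0 < D₀ := by
      have : (k m : ℝ) ≤ s := by exact_mod_cast hk m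
      rw [hD₀]
      linarith
    set wW : ℝ := ∑ i ∈ S \ X, (k i : ℝ) with hwW
    have hcore := core (σ := (s : ℝ) + 1) (D₀ := D₀) (w := wW) (p := (p : ℝ)) (Finset.sum_nonneg fun i _ => Nat.cast_nonneg _) hD
      (fun i => (k i : ℝ)) (fun i => (s : ℝ) + 1 - k i) (S ∩ X) H hh1 hHc (fun j _ => Nat.cast_nonneg _)
      (fun j hj => by
        have h1 : j ∉ L := (Finset.mem_sdiff.1 (Finset.mem_inter.1 hj).1).2
        have h2 : (k j : ℝ) ≤ k m := by exact_mod_cast hL m hm j h1
        rw [hD₀]
        linarith)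
      (fun i hi => by
        have h2 : (k m : ℝ) ≤ k i := by exact_mod_cast hmin i (hHL' hi)
        rw [hD₀]
        linarith)
      (by
        -- the total cost
        have h1 : wW + ∑ j ∈ S ∩ X, (k j : ℝ) = ∑ i ∈ S, (k i : ℝ) := by
          rw [hwW, add_comm, Finset.sum_inter_add_sum_sdiff]
        have h2 : ∑ i ∈ S, (k i : ℝ) + ∑ i ∈ L, (k i : ℝ) ≤ p * ((s : ℝ) + 1) := by
          have h3 : ∑ i ∈ S, k i + ∑ i ∈ L, k i ≤ p * (s + 1) := by
            rw [hS, Finset.sum_sdiff (Finset.subset_univ L)]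
            exact hK
          exact_mod_cast h3
        have h4 : ∑ i ∈ L, ((s : ℝ) + 1 - k i) = p * ((s : ℝ) + 1) - ∑ i ∈ L, (k i : ℝ) := by
          rw [Finset.sum_sub_distrib, Finset.sum_const, hLc, nsmul_eq_mul]
        have h5 : ∑ i ∈ L, ((s : ℝ) + 1 - k i) ≤ ∑ i ∈ H, ((s : ℝ) + 1 - k i) + (p - ((S ∩ X).card : ℝ)) * D₀ := by
          rw [← Finset.sum_sdiff hHL', add_comm]
          refine add_le_add_right ?_ _
          calc ∑ i ∈ L \ H, ((s : ℝ) + 1 - k i) ≤ ∑ i ∈ L \ H, D₀ := by
                refine Finset.sum_le_sum fun i hi => ?_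
                have h2 : (k m : ℝ) ≤ k i := by exact_mod_cast hmin i (Finset.mem_sdiff.1 hi).1
                rw [hD₀]
                linarith
            _ = (p - ((S ∩ X).card : ℝ)) * D₀ := by
                rw [Finset.sum_const, nsmul_eq_mul, Finset.card_sdiff_of_subset hHL', hLc, hHc, Nat.cast_sub (by
                  have := Finset.card_le_card hHL'
                  omega)]
        rw [h1]
        linarith)
    have hlow : ∀ c : ℕ, (∑ j ∈ S ∩ X, Ph ((S ∩ X).card : ℝ) wW ((c : ℝ) + 1 - k j)) / ((S ∩ X).card : ℝ) ≤ PP k X n S c :=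
      fun c => PP_low n S c (le_of_eq hn.symm) hh1
    have h1 : ∑ i ∈ H, (∑ j ∈ S ∩ X, Ph ((S ∩ X).card : ℝ) wW ((s : ℝ) + 1 - k i - k j)) / ((S ∩ X).card : ℝ) ≤
        ∑ i ∈ H, PP k X n S (s - k i) := by
      refine Finset.sum_le_sum fun i _ => ?_
      have h2 := hlow (s - k i)
      rw [Nat.cast_sub (hk i)] at h2
      refine le_trans (le_of_eq ?_) h2
      congr 1
      refine Finset.sum_congr rfl fun j _ => ?_
      congr 1
      ring
    have h2 : ∑ i ∈ H, PP k X n S (s - k i) ≤ ∑ i ∈ L \ X, PP k X n S (s - k i) :=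
      Finset.sum_le_sum_of_subset_of_nonneg hHL fun i _ _ => PP_nonneg k X n _ _
    have h3 := mul_le_mul_of_nonneg_left (hlow s) (Nat.cast_nonneg (α := ℝ) p)
    rw [hcard]
    push_cast
    linarith

end Pool.Agent.Helper22.LK
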